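import Pool.Agent.Q202.IS.Main

/-!
Whitehead torsion of isometries of positive definite hermitian forms over integral group rings.

Let `G` be a torsion-free group, `φ` a positive definite hermitian form (nonsingular or not) on a
free `ℤG`-module `M` with a finite basis `e`, and `α` an isometry of `φ`. Let `F` be the finite part
of `φ`, the submodule generated by the subgroups of finite rank of `M` which are orthogonal direct
summands of the lattice `M`.

(1) `α` is the composition of an isometry `γ` which is the identity on `F` and of an isometry `β`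
which is the identity on the orthogonal complement of `F`, and `β` is simple: its matrix represents
zero in the Whitehead group of `G`. So the torsion of `α` is that of `γ`.

(2) If `F = M`, all isometries are simple. This is the case if `φ` has an integral matrix in some
basis of `M`, and also if `φ` is uniformly positive and `M` is generated by its vectors of norm at
most two.

The idea is that `F` is free with an integral matrix, and an isometry of `F` is the product of an
invertible integral matrix and a diagonal matrix with entries in `G` (the orthogonal decomposition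
of Eichler and Kneser in infinite rank).
-/

set_option autoImplicit false

namespace Pool.Agent.Results.MP_98022b_gt.IsometriesAreSimple

open Pool.Agent.Y75.SV Pool.Agent.Y75.EK Pool.Agent.Q202.IS

/-- the square matrix `x` over `ℤG`, stabilised by an identity block, is `± g` on one diagonal entry
times a product of commutators of invertible matrices: it represents zero in the Whitehead group -/
def ZeroInWh {G : Type} [Group G] {n : ℕ} (x : Matrix (Fin n) (Fin n) (MonoidAlgebra ℤ G)) : Prop :=
  ∃ (m : ℕ) (g : G) (ε : ℤˣ)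
    (C : (Matrix (Fin n ⊕ Fin (m + 1)) (Fin n ⊕ Fin (m + 1)) (MonoidAlgebra ℤ G))ˣ),
    C ∈ commutator (Matrix (Fin n ⊕ Fin (m + 1)) (Fin n ⊕ Fin (m + 1)) (MonoidAlgebra ℤ G))ˣ ∧
    Matrix.fromBlocks x 0 0 (1 : Matrix (Fin (m + 1)) (Fin (m + 1)) (MonoidAlgebra ℤ G)) =
      Matrix.diagonal (fun i : Fin n ⊕ Fin (m + 1) =>
          if i = Sum.inr (0 : Fin (m + 1)) then
            (MonoidAlgebra.single g ((ε : ℤ)) : MonoidAlgebra ℤ G) else 1) *
        (↑C : Matrix (Fin n ⊕ Fin (m + 1)) (Fin n ⊕ Fin (m + 1)) (MonoidAlgebra ℤ G))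

theorem zero_of_TT {G : Type} [Group G] {M : Type} [AddCommGroup M]
    [Module (MonoidAlgebra ℤ G) M] {n : ℕ} (e : Module.Basis (Fin n) (MonoidAlgebra ℤ G) M)
    (β : M ≃ₗ[MonoidAlgebra ℤ G] M) (h : TH57.Thr.TT (TH57.Thr.TU G) (matU e β)) :
    ZeroInWh (mat e β) := TH57.Thr.TT_frozen n (matU e β) h

theorem result (G : Type) [Group G] (hG : ∀ g : G, ∀ n : ℕ, 0 < n → g ^ n = 1 → g = 1)
    (M : Type) [AddCommGroup M] [Module (MonoidAlgebra ℤ G) M] (n : ℕ)
    (e : Module.Basis (Fin n) (MonoidAlgebra ℤ G) M) (φ : HermForm G M) (hφ : φ.Pos)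
    (α : M ≃ₗ[MonoidAlgebra ℤ G] M) (hα : ∀ x y, φ.val (α x) (α y) = φ.val x y) :
    -- (1)
    (∃ β γ : M ≃ₗ[MonoidAlgebra ℤ G] M, (∀ x, α x = β (γ x)) ∧
      (∀ x ∈ φ.finPart, γ x = x) ∧ (∀ x, (∀ z ∈ φ.finPart, φ.val x z = 0) → β x = x) ∧
      (∀ x y, φ.val (γ x) (γ y) = φ.val x y) ∧ (∀ x y, φ.val (β x) (β y) = φ.val x y) ∧
      ZeroInWh (mat e β)) ∧
    -- (2)
    ((φ.finPart = ⊤ ∨ φ.ExtendedFromInt ∨ (φ.UniformlyPos ∧ φ.shortSpan = ⊤)) →
      ZeroInWh (mat e α)) := by
  have : Module.Finite (MonoidAlgebra ℤ G) M := Module.Finite.of_basis e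
  have : Module.Free (MonoidAlgebra ℤ G) M := Module.Free.of_basis e
  refine ⟨?_, fun h => ?_⟩
  · obtain ⟨β, γ, h1, h2, h3, h4, h5, h6⟩ := main hG φ hφ e α hα
    exact ⟨β, γ, fun x => by rw [h1, LinearEquiv.trans_apply], h3, h2, h5, h4,
      zero_of_TT e β h6⟩
  · have htop : φ.finPart = ⊤ := by
      rcases h with h | h | ⟨h, h'⟩
      · exact h
      · exact finPart_of_extended φ h
      · exact finPart_of_short φ h h'
    exact zero_of_TT e α (main_top hG φ hφ htop e α hα)

end Pool.Agent.Results.MP_98022b_gt.IsometriesAreSimple
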